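import Pool.Agent.Helper95.QL.Defs
import Pool.Agent.Helper47.EG.Hold

/-! # Project QL, block NZ : the averaged remainder near zero -/

set_option autoImplicit false

namespace Pool.Agent.Helper8.QL

open MeasureTheory Set Filter Topology
open Pool.Agent.Helper18.ES (bb)
open Pool.Agent.Helper95.IT (rho rho_cont)
open Pool.Agent.Helper71.LA (II II_le IIexp_le CI CI_nonneg)
open Pool.Agent.Helper99.MS (al XX EE ww XX_nonpos XX_le XX_le_sq_pos XX_le_sq EE_pos EE_add EE_zero ww_cont ww_int ww_tot ww_Iic ww_Ioi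
  ww_nonneg ww_nonpos al_cont al_int)
open Pool.Agent.Helper95.QL (Rm)

theorem exp4 : Real.exp (11 / 8) ≤ 4 := by
  rw [← Real.le_log_iff_exp_le (by norm_num)]
  have h : Real.log 4 = 2 * Real.log 2 := by
    rw [show (4 : ℝ) = 2 ^ 2 by norm_num, Real.log_pow]; norm_num
  rw [h]
  have := Real.log_two_gt_d9
  linarith

theorem exp2 : Real.exp (1 / 2) ≤ 2 := by
  rw [← Real.le_log_iff_exp_le (by norm_num)]
  have := Real.log_two_gt_d9
  linarith

/-- decay far from zero -/
theorem XX_far {t : ℝ} (ht : 1 ≤ |t|) : XX t ≤ -(|t| / 3) := by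
  rcases le_total 0 t with h | h
  · rw [abs_of_nonneg h] at ht ⊢
    have := XX_le_sq_pos h
    nlinarith
  · rw [abs_of_nonpos h] at ht ⊢
    unfold XX
    have h1 : Real.exp (-1) * (t + 2) ≤ Real.exp t := by
      have h2 : Real.exp t = Real.exp (-1) * Real.exp (t + 1) := by rw [← Real.exp_add]; congr 1; ring
      rw [h2]
      apply mul_le_mul_of_nonneg_left _ (Real.exp_pos _).le
      linarith [Real.add_one_le_exp (t + 1)]
    have h3 : Real.exp (-1) ≤ 2 / 3 ∧ 1 / 3 ≤ Real.exp (-1) := by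
      have := Real.exp_one_gt_d9
      have := Real.exp_one_lt_d9
      rw [Real.exp_neg]
      constructor
      · rw [inv_le_comm₀ (Real.exp_pos _) (by norm_num)]
        norm_num
        linarith
      · rw [le_inv_comm₀ (by norm_num) (Real.exp_pos _)]
        norm_num
        linarith
    have h4 : 0.36 ≤ Real.exp (-1) := by
      have := Real.exp_one_lt_d9
      rw [Real.exp_neg, le_inv_comm₀ (by norm_num) (Real.exp_pos _)]
      norm_num
      linarith
    nlinarith

/-- the weight -/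
theorem wt_le {m : ℝ} (hm : 8 ≤ m) (t : ℝ) : (1 + m * t ^ 2) * Real.exp (|t| / 2) * EE (m / 2) t ≤ 200 := by
  have ha := abs_nonneg t
  have hs : t ^ 2 = |t| ^ 2 := (sq_abs t).symm
  rcases le_total (|t|) 1 with h | h
  · have h1 : EE (m / 2) t ≤ Real.exp (-(m * t ^ 2 / 8)) := by
      unfold EE
      apply Real.exp_le_exp.2
      have := XX_le_sq h
      nlinarith
    have h2 : Real.exp (|t| / 2) ≤ 2 := (Real.exp_le_exp.2 (by linarith)).trans exp2
    have h3 : (1 + m * t ^ 2) * Real.exp (-(m * t ^ 2 / 8)) ≤ 9 := by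
      have e1 := Real.add_one_le_exp (m * t ^ 2 / 8)
      have e2 : Real.exp (-(m * t ^ 2 / 8)) * Real.exp (m * t ^ 2 / 8) = 1 := by rw [← Real.exp_add]; simp
      have e3 : 1 ≤ Real.exp (m * t ^ 2 / 8) := Real.one_le_exp (by positivity)
      have e4 := Real.exp_pos (-(m * t ^ 2 / 8))
      nlinarith
    have e0 : 0 ≤ m * t ^ 2 := by positivity
    calc (1 + m * t ^ 2) * Real.exp (|t| / 2) * EE (m / 2) t
        ≤ (1 + m * t ^ 2) * 2 * Real.exp (-(m * t ^ 2 / 8)) := by
          apply mul_le_mul (mul_le_mul_of_nonneg_left h2 (by positivity)) h1 (EE_pos _ _).le (by positivity)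
      _ = 2 * ((1 + m * t ^ 2) * Real.exp (-(m * t ^ 2 / 8))) := by ring
      _ ≤ 200 := by linarith
  · have h1 : EE (m / 2) t ≤ Real.exp (-(m * |t| / 6)) := by
      unfold EE
      apply Real.exp_le_exp.2
      have := XX_far h
      nlinarith
    set y : ℝ := m * |t| with hy
    have hy0 : 0 ≤ y := by positivity
    have h2 : Real.exp (|t| / 2) ≤ Real.exp (y / 16) := Real.exp_le_exp.2 (by rw [hy]; nlinarith)
    have h3 : m * t ^ 2 ≤ y ^ 2 := by
      rw [hy, hs]; nlinarith [mul_nonneg (by positivity : (0:ℝ) ≤ m) (sq_nonneg |t|)]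
    have h4 : y ^ 2 ≤ 2 * (48 / 5) ^ 2 * Real.exp (5 * y / 48) := by
      have := Real.quadratic_le_exp_of_nonneg (x := 5 * y / 48) (by positivity)
      nlinarith
    have h5 : 1 ≤ Real.exp (5 * y / 48) := Real.one_le_exp (by positivity)
    have h6 : Real.exp (y / 16) * Real.exp (-(y / 6)) * Real.exp (5 * y / 48) = 1 := by
      rw [← Real.exp_add, ← Real.exp_add, show y / 16 + -(y / 6) + 5 * y / 48 = 0 by ring, Real.exp_zero]
    calc (1 + m * t ^ 2) * Real.exp (|t| / 2) * EE (m / 2) t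
        ≤ (1 + y ^ 2) * Real.exp (y / 16) * Real.exp (-(y / 6)) := by
          apply mul_le_mul (mul_le_mul (by linarith) h2 (Real.exp_pos _).le (by positivity)) _ (EE_pos _ _).le (by positivity)
          exact h1
      _ ≤ (200 * Real.exp (5 * y / 48)) * Real.exp (y / 16) * Real.exp (-(y / 6)) := by
          apply mul_le_mul_of_nonneg_right _ (Real.exp_pos _).le
          apply mul_le_mul_of_nonneg_right _ (Real.exp_pos _).le
          nlinarith
      _ = 200 * (Real.exp (y / 16) * Real.exp (-(y / 6)) * Real.exp (5 * y / 48)) := by ring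
      _ = 200 := by rw [h6, mul_one]

theorem ww_wt {m : ℝ} (hm : 8 ≤ m) (t : ℝ) : (1 + m * t ^ 2) * Real.exp (|t| / 2) * |ww m t| ≤ 400 * |ww (m / 2) t| := by
  have h0 : EE m t = EE (m / 2) t * EE (m / 2) t := by rw [← EE_add]; congr 1; ring
  have h1 : |ww m t| = 2 * |ww (m / 2) t| * EE (m / 2) t := by
    unfold ww
    rw [h0, show m * (1 - Real.exp t) * (EE (m / 2) t * EE (m / 2) t) = 2 * (m / 2 * (1 - Real.exp t) * EE (m / 2) t) * EE (m / 2) t by ring,
      abs_mul, abs_mul, abs_of_pos (EE_pos _ _), abs_of_pos (by norm_num : (0 : ℝ) < 2)]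
  rw [h1]
  have h2 := mul_le_mul_of_nonneg_left (wt_le hm t) (by positivity : 0 ≤ 2 * |ww (m / 2) t|)
  linarith

theorem al_wt {m : ℝ} (hm : 8 ≤ m) (t : ℝ) : (1 + m * t ^ 2) * Real.exp (3 * max t 0 / 4) * |al m t| ≤ 400 * |ww (m / 2) t| := by
  refine le_trans ?_ (ww_wt hm t)
  unfold al
  rw [abs_mul, abs_of_pos (Real.exp_pos _)]
  have h : Real.exp (3 * max t 0 / 4) * Real.exp (-(t / 2)) ≤ Real.exp (|t| / 2) := by
    rw [← Real.exp_add]
    apply Real.exp_le_exp.2
    rcases le_total 0 t with h | h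
    · rw [abs_of_nonneg h, max_eq_left h]; linarith
    · rw [abs_of_nonpos h, max_eq_right h]; linarith
  have h2 : 0 ≤ (1 + m * t ^ 2) * |ww m t| := by positivity
  nlinarith [mul_le_mul_of_nonneg_left h h2]

theorem ww_abs_tot {p : ℝ} (hp : 4 ≤ p) : ∫ t, |ww p t| = 2 := by
  have h := integral_add_compl (measurableSet_Iic (a := (0:ℝ))) (ww_int hp).abs
  rw [Set.compl_Iic] at h
  rw [← h]
  have h1 : ∫ t in Iic (0:ℝ), |ww p t| = 1 := by
    rw [setIntegral_congr_fun measurableSet_Iic (g := ww p) (fun t ht => abs_of_nonneg (ww_nonneg (by linarith) ht)), ww_Iic hp, EE_zero]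
  have h2 : ∫ t in Ioi (0:ℝ), |ww p t| = 1 := by
    rw [setIntegral_congr_fun measurableSet_Ioi (g := fun t => -ww p t)
      (fun t ht => abs_of_nonpos (ww_nonpos (by linarith) (le_of_lt ht))), integral_neg, ww_Ioi hp, EE_zero]
    norm_num
  rw [h1, h2]; norm_num

/-- the powers of `t` against the weight -/
theorem pow_wt {m : ℝ} (hm : 8 ≤ m) {p : ℝ} (hp0 : 0 ≤ p) (hp : p ≤ 2) (t : ℝ) : |t| ^ p ≤ m ^ (-(p / 2)) * (1 + m * t ^ 2) := by
  have hm0 : 0 < m := by linarith
  have ha := abs_nonneg t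
  have hy : 0 ≤ √m * |t| := by positivity
  have h1 : (√m * |t|) ^ p ≤ 1 + m * t ^ 2 := by
    have h2 : m * t ^ 2 = (√m * |t|) ^ (2 : ℝ) := by
      rw [Real.rpow_two, mul_pow, Real.sq_sqrt hm0.le, sq_abs]
    rw [h2]
    rcases le_total (√m * |t|) 1 with h | h
    · have := Real.rpow_le_one hy h hp0
      have := Real.rpow_nonneg hy (2 : ℝ)
      linarith
    · have := Real.rpow_le_rpow_of_exponent_le h hp
      linarith
  have h3 : m ^ (-(p / 2)) * (√m * |t|) ^ p = |t| ^ p := by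
    rw [Real.mul_rpow (Real.sqrt_nonneg _) ha, Real.sqrt_eq_rpow, ← Real.rpow_mul hm0.le, ← mul_assoc, ← Real.rpow_add hm0]
    rw [show -(p / 2) + 1 / 2 * p = 0 by ring, Real.rpow_zero, one_mul]
  rw [← h3]
  exact mul_le_mul_of_nonneg_left h1 (Real.rpow_nonneg hm0.le _)

theorem al_mass : ∃ C : ℝ, 1 ≤ C ∧ ∀ m : ℝ, 8 ≤ m → |∫ t : ℝ, al m t| ≤ C * m ^ (-(1/2) : ℝ) := by
  refine ⟨800, by norm_num, fun m hm => ?_⟩
  have h4 : 4 ≤ m / 2 := by linarith
  have h1 : ∫ t : ℝ, al m t = ∫ t : ℝ, (Real.exp (-(t / 2)) - 1) * ww m t := by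
    have e : ∀ t, (Real.exp (-(t / 2)) - 1) * ww m t = al m t - ww m t := fun t => by unfold al; ring
    simp only [e]
    rw [integral_sub (al_int (by linarith)) (ww_int (by linarith)), ww_tot (by linarith), sub_zero]
  rw [h1, ← Real.norm_eq_abs]
  refine (norm_integral_le_of_norm_le (g := fun t => m ^ (-(1/2) : ℝ) * (400 * |ww (m / 2) t|)) (((ww_int h4).abs.const_mul 400).const_mul _)
    (Filter.Eventually.of_forall fun t => ?_)).trans (le_of_eq ?_)
  · rw [norm_mul, Real.norm_eq_abs, Real.norm_eq_abs]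
    have h2 : |Real.exp (-(t / 2)) - 1| ≤ |t| * Real.exp (|t| / 2) := by
      rcases le_total 0 t with h | h
      · rw [abs_of_nonneg h]
        have e1 : Real.exp (-(t / 2)) ≤ 1 := Real.exp_le_one_iff.2 (by linarith)
        rw [abs_of_nonpos (by linarith)]
        have e2 := Real.add_one_le_exp (-(t / 2))
        have e3 : 1 ≤ Real.exp (t / 2) := Real.one_le_exp (by linarith)
        nlinarith
      · rw [abs_of_nonpos h]
        have e1 : 1 ≤ Real.exp (-(t / 2)) := Real.one_le_exp (by linarith)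
        rw [abs_of_nonneg (by linarith)]
        have e2 := Real.add_one_le_exp (t / 2)
        have e3 : Real.exp (t / 2) * Real.exp (-(t / 2)) = 1 := by rw [← Real.exp_add]; simp
        have e4 : -t / 2 = -(t / 2) := by ring
        rw [e4]
        nlinarith
    have h3 := pow_wt hm (p := 1) (by norm_num) (by norm_num) t
    rw [Real.rpow_one] at h3
    calc |Real.exp (-(t / 2)) - 1| * |ww m t| ≤ (|t| * Real.exp (|t| / 2)) * |ww m t| := mul_le_mul_of_nonneg_right h2 (abs_nonneg _)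
      _ ≤ ((m ^ (-(1 / 2) : ℝ) * (1 + m * t ^ 2)) * Real.exp (|t| / 2)) * |ww m t| := by
          apply mul_le_mul_of_nonneg_right _ (abs_nonneg _)
          exact mul_le_mul_of_nonneg_right h3 (Real.exp_pos _).le
      _ = m ^ (-(1 / 2) : ℝ) * ((1 + m * t ^ 2) * Real.exp (|t| / 2) * |ww m t|) := by ring
      _ ≤ _ := mul_le_mul_of_nonneg_left (ww_wt hm t) (Real.rpow_nonneg (by linarith) _)
  · rw [integral_const_mul, integral_const_mul, ww_abs_tot h4]
    ring

/-- size of the remainder -/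
theorem rho_sz {v : ℝ} (hv : |v| ≤ 3/4) (t : ℝ) : |rho (v - t)| ≤ 2 * (1 + CI) * Real.exp (3 * max t 0 / 4) := by
  have hv' := abs_le.1 hv
  have hC := CI_nonneg
  unfold rho
  rw [abs_mul, abs_of_pos (Real.exp_pos _)]
  have h1 := IIexp_le (v - t)
  have h2 := abs_add_le 1 (II (Real.exp (v - t)))
  rw [abs_one] at h2
  have hm0 := le_max_right t 0
  have hmt := le_max_left t 0
  have e1 : Real.exp (-(v - t) / 2) ≤ 2 * Real.exp (3 * max t 0 / 4) := by
    calc Real.exp (-(v - t) / 2) ≤ Real.exp (1 / 2 + 3 * max t 0 / 4) := Real.exp_le_exp.2 (by linarith)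
      _ = Real.exp (1 / 2) * Real.exp (3 * max t 0 / 4) := Real.exp_add _ _
      _ ≤ _ := mul_le_mul_of_nonneg_right exp2 (Real.exp_pos _).le
  have e2 : Real.exp (-(v - t) / 4) * Real.exp (-(v - t) / 2) ≤ 2 * Real.exp (3 * max t 0 / 4) := by
    have e3 : Real.exp (9 / 16) ≤ 2 := by
      rw [← Real.le_log_iff_exp_le (by norm_num)]
      have := Real.log_two_gt_d9
      linarith
    calc Real.exp (-(v - t) / 4) * Real.exp (-(v - t) / 2) = Real.exp (-(v - t) / 4 + -(v - t) / 2) := (Real.exp_add _ _).symm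
      _ ≤ Real.exp (9 / 16 + 3 * max t 0 / 4) := Real.exp_le_exp.2 (by linarith)
      _ = Real.exp (9 / 16) * Real.exp (3 * max t 0 / 4) := Real.exp_add _ _
      _ ≤ _ := mul_le_mul_of_nonneg_right e3 (Real.exp_pos _).le
  have e0 := Real.exp_pos (-(v - t) / 2)
  calc |1 + II (Real.exp (v - t))| * Real.exp (-(v - t) / 2) ≤ (1 + CI * Real.exp (-(v - t) / 4)) * Real.exp (-(v - t) / 2) :=
        mul_le_mul_of_nonneg_right (by linarith) e0.le
    _ = Real.exp (-(v - t) / 2) + CI * (Real.exp (-(v - t) / 4) * Real.exp (-(v - t) / 2)) := by ring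
    _ ≤ 2 * Real.exp (3 * max t 0 / 4) + CI * (2 * Real.exp (3 * max t 0 / 4)) := by
        have := mul_le_mul_of_nonneg_left e2 hC
        linarith
    _ = _ := by ring

/-- Hölder continuity near zero, with growth -/
theorem rho_hold : ∃ C : ℝ, 0 ≤ C ∧ ∀ v : ℝ, |v| ≤ 3/4 → ∀ t : ℝ,
    |rho (v - t) - rho v| ≤ C * |t| ^ (3 / 8 : ℝ) * Real.exp (3 * max t 0 / 4) := by
  obtain ⟨CH, hCH, hH⟩ := Pool.Agent.Helper47.EG.II_hold
  have hCI := CI_nonneg
  refine ⟨8 * CH + 16 * (1 + CI), by positivity, fun v hv t => ?_⟩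
  have hv' := abs_le.1 hv
  have hE1 : 1 ≤ Real.exp (3 * max t 0 / 4) := Real.one_le_exp (by have := le_max_right t 0; linarith)
  rcases le_total (|t|) (5 / 8) with ht | ht
  · have ht' := abs_le.1 ht
    have ha := abs_nonneg t
    have hpt : |t| ≤ |t| ^ (3 / 8 : ℝ) := by
      have := Real.rpow_le_rpow_of_exponent_ge' ha (by linarith) (by norm_num : (0:ℝ) ≤ 3 / 8) (by norm_num : (3 / 8 : ℝ) ≤ 1)
      rwa [Real.rpow_one] at this
    have rng : ∀ s : ℝ, |s| ≤ 11 / 8 → 1 / 4 ≤ Real.exp s ∧ Real.exp s ≤ 4 := by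
      intro s hs
      have hs' := abs_le.1 hs
      have e1 : Real.exp s ≤ 4 := (Real.exp_le_exp.2 hs'.2).trans exp4
      have e2 : Real.exp (-s) ≤ 4 := (Real.exp_le_exp.2 (by linarith)).trans exp4
      have e3 : Real.exp s * Real.exp (-s) = 1 := by rw [← Real.exp_add]; simp
      have := Real.exp_pos s
      refine ⟨by nlinarith, e1⟩
    obtain ⟨r1, r2⟩ := rng (v - t) (abs_le.2 ⟨by linarith, by linarith⟩)
    obtain ⟨r3, r4⟩ := rng v (abs_le.2 ⟨by linarith, by linarith⟩)
    have hII := hH _ _ r1 r2 r3 r4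
    -- differences of exponentials
    have hd : |Real.exp (v - t) - Real.exp v| ≤ 8 * |t| := by
      have e1 : Real.exp (v - t) - Real.exp v = Real.exp v * (Real.exp (-t) - 1) := by
        rw [mul_sub, ← Real.exp_add, mul_one]; congr 1
      rw [e1, abs_mul, abs_of_pos (Real.exp_pos _)]
      have e2 : |Real.exp (-t) - 1| ≤ 2 * |t| := by
        have := Real.abs_exp_sub_one_le (x := -t) (by rw [abs_neg]; linarith)
        rwa [abs_neg] at this
      nlinarith [Real.exp_pos v, abs_nonneg (Real.exp (-t) - 1)]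
    have hd38 : |Real.exp (v - t) - Real.exp v| ^ (3 / 8 : ℝ) ≤ 4 * |t| ^ (3 / 8 : ℝ) := by
      calc |Real.exp (v - t) - Real.exp v| ^ (3 / 8 : ℝ) ≤ (8 * |t|) ^ (3 / 8 : ℝ) := Real.rpow_le_rpow (abs_nonneg _) hd (by norm_num)
        _ = 8 ^ (3 / 8 : ℝ) * |t| ^ (3 / 8 : ℝ) := Real.mul_rpow (by norm_num) ha
        _ ≤ 4 * |t| ^ (3 / 8 : ℝ) := by
            apply mul_le_mul_of_nonneg_right _ (Real.rpow_nonneg ha _)
            calc (8 : ℝ) ^ (3 / 8 : ℝ) ≤ 8 ^ (2 / 3 : ℝ) := Real.rpow_le_rpow_of_exponent_le (by norm_num) (by norm_num)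
              _ = 4 := by
                rw [show (8 : ℝ) = 2 ^ (3 : ℝ) by norm_num, ← Real.rpow_mul (by norm_num)]
                norm_num
    have he : |Real.exp (-(v - t) / 2) - Real.exp (-v / 2)| ≤ 2 * |t| := by
      have e1 : Real.exp (-(v - t) / 2) - Real.exp (-v / 2) = Real.exp (-v / 2) * (Real.exp (t / 2) - 1) := by
        rw [mul_sub, ← Real.exp_add, mul_one]; congr 2; ring
      rw [e1, abs_mul, abs_of_pos (Real.exp_pos _)]
      have e2 : |Real.exp (t / 2) - 1| ≤ |t| := by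
        have h0 : |t / 2| = |t| / 2 := by rw [abs_div, abs_of_pos (by norm_num : (0:ℝ) < 2)]
        have := Real.abs_exp_sub_one_le (x := t / 2) (by rw [h0]; linarith)
        rw [h0] at this
        linarith
      have e3 : Real.exp (-v / 2) ≤ 2 := (Real.exp_le_exp.2 (by linarith)).trans exp2
      nlinarith [Real.exp_pos (-v / 2), abs_nonneg (Real.exp (t / 2) - 1)]
    have hE2 : Real.exp (-(v - t) / 2) ≤ 2 := by
      calc Real.exp (-(v - t) / 2) ≤ Real.exp (11 / 16) := Real.exp_le_exp.2 (by linarith)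
        _ ≤ 2 := by
          rw [← Real.le_log_iff_exp_le (by norm_num)]
          have := Real.log_two_gt_d9
          linarith
    have hIv : |1 + II (Real.exp v)| ≤ 1 + 2 * CI := by
      have h1 := IIexp_le v
      have h2 := abs_add_le 1 (II (Real.exp v))
      rw [abs_one] at h2
      have h3 : Real.exp (-v / 4) ≤ 2 := (Real.exp_le_exp.2 (by linarith)).trans exp2
      have h4 := mul_le_mul_of_nonneg_left h3 hCI
      linarith
    have key : |rho (v - t) - rho v| ≤ (8 * CH + 16 * (1 + CI)) * |t| ^ (3 / 8 : ℝ) := by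
      have e : rho (v - t) - rho v = (II (Real.exp (v - t)) - II (Real.exp v)) * Real.exp (-(v - t) / 2) +
          (1 + II (Real.exp v)) * (Real.exp (-(v - t) / 2) - Real.exp (-v / 2)) := by
        unfold rho; ring
      rw [e]
      refine (abs_add_le _ _).trans ?_
      rw [abs_mul, abs_mul, abs_of_pos (Real.exp_pos (-(v - t) / 2))]
      have p0 : 0 ≤ |t| ^ (3 / 8 : ℝ) := Real.rpow_nonneg ha _
      have t1 : |II (Real.exp (v - t)) - II (Real.exp v)| * Real.exp (-(v - t) / 2) ≤ (CH * (4 * |t| ^ (3 / 8 : ℝ))) * 2 :=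
        mul_le_mul (hII.trans (mul_le_mul_of_nonneg_left hd38 hCH)) hE2 (Real.exp_pos _).le (by positivity)
      have t2 : |1 + II (Real.exp v)| * |Real.exp (-(v - t) / 2) - Real.exp (-v / 2)| ≤ (1 + 2 * CI) * (2 * |t| ^ (3 / 8 : ℝ)) :=
        mul_le_mul hIv (he.trans (by linarith)) (abs_nonneg _) (by positivity)
      nlinarith [mul_nonneg hCI p0]
    refine key.trans ?_
    have p0 : 0 ≤ (8 * CH + 16 * (1 + CI)) * |t| ^ (3 / 8 : ℝ) := by positivity
    nlinarith
  · have h1 := rho_sz hv t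
    have h2 := rho_sz hv 0
    rw [sub_zero, max_self] at h2
    norm_num at h2
    have h3 : 1 / 2 ≤ |t| ^ (3 / 8 : ℝ) := by
      calc (1 / 2 : ℝ) ≤ (5 / 8 : ℝ) ^ (1 : ℝ) := by norm_num
        _ ≤ (5 / 8 : ℝ) ^ (3 / 8 : ℝ) := Real.rpow_le_rpow_of_exponent_ge (by norm_num) (by norm_num) (by norm_num)
        _ ≤ _ := Real.rpow_le_rpow (by norm_num) ht (by norm_num)
    have h4 := abs_sub (rho (v - t)) (rho v)
    set E := Real.exp (3 * max t 0 / 4) with hE
    set P := |t| ^ (3 / 8 : ℝ) with hP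
    have h5 : |rho (v - t) - rho v| ≤ 4 * (1 + CI) * E := by nlinarith
    refine h5.trans ?_
    have h6 : 0 ≤ (8 * (1 + CI)) * E := by positivity
    have h7 : 0 ≤ 8 * CH * P * E := by positivity
    nlinarith [mul_le_mul_of_nonneg_left h3 h6, mul_nonneg (by positivity : 0 ≤ 8 * (1 + CI) * P) (by linarith : 0 ≤ E)]

theorem rho_al_int {m : ℝ} (hm : 8 ≤ m) {v : ℝ} (hv : |v| ≤ 3/4) : Integrable (fun t => rho (v - t) * al m t) := by
  have h4 : 4 ≤ m / 2 := by linarith
  have hC := CI_nonneg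
  refine Integrable.mono' (g := fun t => 2 * (1 + CI) * (400 * |ww (m / 2) t|)) (((ww_int h4).abs.const_mul 400).const_mul _) ?_ ?_
  · exact ((rho_cont.comp (by fun_prop : Continuous fun t : ℝ => v - t)).mul (al_cont m)).aestronglyMeasurable
  · refine Filter.Eventually.of_forall fun t => ?_
    rw [norm_mul, Real.norm_eq_abs, Real.norm_eq_abs]
    have h1 := mul_le_mul_of_nonneg_right (rho_sz hv t) (abs_nonneg (al m t))
    have h2 := al_wt hm t
    have h3 : Real.exp (3 * max t 0 / 4) * |al m t| ≤ (1 + m * t ^ 2) * Real.exp (3 * max t 0 / 4) * |al m t| := by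
      rw [mul_assoc]
      apply le_mul_of_one_le_left (by positivity)
      have : 0 ≤ m * t ^ 2 := by positivity
      linarith
    calc |rho (v - t)| * |al m t| ≤ 2 * (1 + CI) * Real.exp (3 * max t 0 / 4) * |al m t| := h1
      _ = 2 * (1 + CI) * (Real.exp (3 * max t 0 / 4) * |al m t|) := by ring
      _ ≤ _ := mul_le_mul_of_nonneg_left (h3.trans h2) (by positivity)

theorem Rm_near : ∃ C : ℝ, 1 ≤ C ∧ ∀ m : ℝ, 8 ≤ m → ∀ v : ℝ, |v| ≤ 3/4 →
    |Rm m v + bb * ∫ t : ℝ, al m t| ≤ C * m ^ (-(3/16) : ℝ) := by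
  obtain ⟨CH, hCH, hH⟩ := rho_hold
  obtain ⟨CM, hCM, hM⟩ := al_mass
  have hC := CI_nonneg
  refine ⟨1 + 800 * CH + (2 * (1 + CI) + |bb|) * CM, ?_, fun m hm v hv => ?_⟩
  · have : 0 ≤ (2 * (1 + CI) + |bb|) * CM := by positivity
    linarith
  have hm0 : 0 < m := by linarith
  have h4 : 4 ≤ m / 2 := by linarith
  have hpow0 : 0 ≤ m ^ (-(3/16) : ℝ) := Real.rpow_nonneg hm0.le _
  have hi1 := rho_al_int hm hv
  have hi2 := al_int (by linarith : 4 ≤ m)
  have e : Rm m v + bb * ∫ t : ℝ, al m t = (∫ t : ℝ, (rho (v - t) - rho v) * al m t) + (rho v + bb) * ∫ t : ℝ, al m t := by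
    have e1 : ∀ t, (rho (v - t) - rho v) * al m t = rho (v - t) * al m t - rho v * al m t := fun t => by ring
    simp only [e1]
    rw [integral_sub hi1 (hi2.const_mul _), integral_const_mul]
    unfold Rm
    ring
  rw [e]
  refine (abs_add_le _ _).trans ?_
  have t1 : |∫ t : ℝ, (rho (v - t) - rho v) * al m t| ≤ 800 * CH * m ^ (-(3/16) : ℝ) := by
    rw [← Real.norm_eq_abs]
    refine (norm_integral_le_of_norm_le (g := fun t => CH * m ^ (-(3/16) : ℝ) * (400 * |ww (m / 2) t|)) (((ww_int h4).abs.const_mul 400).const_mul _)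
      (Filter.Eventually.of_forall fun t => ?_)).trans (le_of_eq ?_)
    · rw [norm_mul, Real.norm_eq_abs, Real.norm_eq_abs]
      have h3 := pow_wt hm (p := 3 / 8) (by norm_num) (by norm_num) t
      rw [show -((3 / 8 : ℝ) / 2) = -(3/16) by norm_num] at h3
      calc |rho (v - t) - rho v| * |al m t| ≤ (CH * |t| ^ (3 / 8 : ℝ) * Real.exp (3 * max t 0 / 4)) * |al m t| :=
            mul_le_mul_of_nonneg_right (hH v hv t) (abs_nonneg _)
        _ ≤ (CH * (m ^ (-(3/16) : ℝ) * (1 + m * t ^ 2)) * Real.exp (3 * max t 0 / 4)) * |al m t| := by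
            apply mul_le_mul_of_nonneg_right _ (abs_nonneg _)
            apply mul_le_mul_of_nonneg_right _ (Real.exp_pos _).le
            exact mul_le_mul_of_nonneg_left h3 hCH
        _ = CH * m ^ (-(3/16) : ℝ) * ((1 + m * t ^ 2) * Real.exp (3 * max t 0 / 4) * |al m t|) := by ring
        _ ≤ _ := mul_le_mul_of_nonneg_left (al_wt hm t) (by positivity)
    · rw [integral_const_mul, integral_const_mul, ww_abs_tot h4]
      ring
  have t2 : |(rho v + bb) * ∫ t : ℝ, al m t| ≤ (2 * (1 + CI) + |bb|) * CM * m ^ (-(3/16) : ℝ) := by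
    rw [abs_mul]
    have h2 := rho_sz hv 0
    rw [sub_zero, max_self] at h2
    norm_num at h2
    have h5 : |rho v + bb| ≤ 2 * (1 + CI) + |bb| := (abs_add_le _ _).trans (by linarith)
    have h6 : m ^ (-(1/2) : ℝ) ≤ m ^ (-(3/16) : ℝ) := Real.rpow_le_rpow_of_exponent_le (by linarith) (by norm_num)
    have h7 : |∫ t : ℝ, al m t| ≤ CM * m ^ (-(3/16) : ℝ) := (hM m hm).trans (mul_le_mul_of_nonneg_left h6 (by linarith))
    calc |rho v + bb| * |∫ t : ℝ, al m t| ≤ (2 * (1 + CI) + |bb|) * (CM * m ^ (-(3/16) : ℝ)) :=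
          mul_le_mul h5 h7 (abs_nonneg _) (by positivity)
      _ = _ := by ring
  have : 0 ≤ m ^ (-(3/16) : ℝ) := hpow0
  calc _ ≤ 800 * CH * m ^ (-(3/16) : ℝ) + (2 * (1 + CI) + |bb|) * CM * m ^ (-(3/16) : ℝ) := add_le_add t1 t2
    _ ≤ _ := by nlinarith

end Pool.Agent.Helper8.QL
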